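import Mathlib

set_option autoImplicit false

namespace Pool.Agent.Results.MP_49a3fa_co.Counter

open Set MeasureTheory Pointwise

/-- The pentagon with vertices `(-2,0), (0,34), (46,31), (46,-31), (0,-34)`. -/
def K0 : Set (ℝ × ℝ) := {p | p.1 ≤ 46 ∧ p.2 ≤ 17 * (p.1 + 2) ∧ -p.2 ≤ 17 * (p.1 + 2) ∧
  46 * p.2 ≤ 1564 - 3 * p.1 ∧ -(46 * p.2) ≤ 1564 - 3 * p.1}

def Good (s t : ℝ) : Prop := ∃ P ∈ K0, ∃ Q ∈ K0, ∃ R ∈ K0,
  0 ≤ (R.1 - P.1) * s + (R.2 - P.2) * t ∧ 0 ≤ -(R.1 - Q.1) * t + (R.2 - Q.2) * s ∧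
  3070 * (s ^ 2 + t ^ 2) < ((R.1 - P.1) * s + (R.2 - P.2) * t) * (-(R.1 - Q.1) * t + (R.2 - Q.2) * s)

lemma good0 (w z : ℝ) (hw : 0 < w) (h0 : -w ≤ z) (h1 : z ≤ w) : Good w z := by
  rcases le_total z ((-3 / 8) * w) with a1 | a1
  · have b0 : 0 ≤ z - (-1) * w := by linarith
    have b1 : 0 ≤ (-3 / 8) * w - z := by linarith
    refine ⟨((0), (34)), by norm_num [K0], ((0), (-34)), by norm_num [K0], ((46), (31 / 2)), by norm_num [K0],
      by simp only; linarith, by simp only; linarith, ?_⟩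
    simp only
    nlinarith [mul_nonneg b0 b1, mul_nonneg hw.le b0, mul_nonneg hw.le b1, mul_pos hw hw]
  rcases le_total z ((-1 / 20) * w) with a2 | a2
  · have b0 : 0 ≤ z - (-3 / 8) * w := by linarith
    have b1 : 0 ≤ (-1 / 20) * w - z := by linarith
    refine ⟨((0), (34)), by norm_num [K0], ((0), (-34)), by norm_num [K0], ((46), (31)), by norm_num [K0],
      by simp only; linarith, by simp only; linarith, ?_⟩
    simp only
    nlinarith [mul_nonneg b0 b1, mul_nonneg hw.le b0, mul_nonneg hw.le b1, mul_pos hw hw]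
  rcases le_total z ((3 / 40) * w) with a3 | a3
  · have b0 : 0 ≤ z - (-1 / 20) * w := by linarith
    have b1 : 0 ≤ (3 / 40) * w - z := by linarith
    refine ⟨((-2), (0)), by norm_num [K0], ((0), (-34)), by norm_num [K0], ((46), (31)), by norm_num [K0],
      by simp only; linarith, by simp only; linarith, ?_⟩
    simp only
    nlinarith [mul_nonneg b0 b1, mul_nonneg hw.le b0, mul_nonneg hw.le b1, mul_pos hw hw]
  · have b0 : 0 ≤ z - (3 / 40) * w := by linarith
    have b1 : 0 ≤ (1) * w - z := by linarith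
    refine ⟨((0), (-34)), by norm_num [K0], ((46), (-31)), by norm_num [K0], ((46), (31)), by norm_num [K0],
      by simp only; linarith, by simp only; linarith, ?_⟩
    simp only
    nlinarith [mul_nonneg b0 b1, mul_nonneg hw.le b0, mul_nonneg hw.le b1, mul_pos hw hw]

lemma good1 (w z : ℝ) (hw : 0 < w) (h0 : -w ≤ z) (h1 : z ≤ w) : Good (-z) w := by
  rcases le_total z ((0) * w) with a1 | a1
  · have b0 : 0 ≤ z - (-1) * w := by linarith
    have b1 : 0 ≤ (0) * w - z := by linarith
    refine ⟨((0), (-34)), by norm_num [K0], ((46), (-31)), by norm_num [K0], ((0), (34)), by norm_num [K0],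
      by simp only; linarith, by simp only; linarith, ?_⟩
    simp only
    nlinarith [mul_nonneg b0 b1, mul_nonneg hw.le b0, mul_nonneg hw.le b1, mul_pos hw hw]
  rcases le_total z ((1 / 10) * w) with a2 | a2
  · have b0 : 0 ≤ z - (0) * w := by linarith
    have b1 : 0 ≤ (1 / 10) * w - z := by linarith
    refine ⟨((0), (-34)), by norm_num [K0], ((46), (31)), by norm_num [K0], ((0), (34)), by norm_num [K0],
      by simp only; linarith, by simp only; linarith, ?_⟩
    simp only
    nlinarith [mul_nonneg b0 b1, mul_nonneg hw.le b0, mul_nonneg hw.le b1, mul_pos hw hw]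
  rcases le_total z ((11 / 20) * w) with a3 | a3
  · have b0 : 0 ≤ z - (1 / 10) * w := by linarith
    have b1 : 0 ≤ (11 / 20) * w - z := by linarith
    refine ⟨((46), (-31)), by norm_num [K0], ((46), (31)), by norm_num [K0], ((0), (34)), by norm_num [K0],
      by simp only; linarith, by simp only; linarith, ?_⟩
    simp only
    nlinarith [mul_nonneg b0 b1, mul_nonneg hw.le b0, mul_nonneg hw.le b1, mul_pos hw hw]
  rcases le_total z ((29 / 40) * w) with a4 | a4
  · have b0 : 0 ≤ z - (11 / 20) * w := by linarith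
    have b1 : 0 ≤ (29 / 40) * w - z := by linarith
    refine ⟨((46), (-31)), by norm_num [K0], ((46), (31)), by norm_num [K0], ((-1), (17)), by norm_num [K0],
      by simp only; linarith, by simp only; linarith, ?_⟩
    simp only
    nlinarith [mul_nonneg b0 b1, mul_nonneg hw.le b0, mul_nonneg hw.le b1, mul_pos hw hw]
  · have b0 : 0 ≤ z - (29 / 40) * w := by linarith
    have b1 : 0 ≤ (1) * w - z := by linarith
    refine ⟨((46), (-31)), by norm_num [K0], ((46), (31)), by norm_num [K0], ((-7 / 4), (17 / 4)), by norm_num [K0],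
      by simp only; linarith, by simp only; linarith, ?_⟩
    simp only
    nlinarith [mul_nonneg b0 b1, mul_nonneg hw.le b0, mul_nonneg hw.le b1, mul_pos hw hw]

lemma good2 (w z : ℝ) (hw : 0 < w) (h0 : -w ≤ z) (h1 : z ≤ w) : Good (-w) (-z) := by
  rcases le_total z ((-29 / 40) * w) with a1 | a1
  · have b0 : 0 ≤ z - (-1) * w := by linarith
    have b1 : 0 ≤ (-29 / 40) * w - z := by linarith
    refine ⟨((46), (-31)), by norm_num [K0], ((46), (31)), by norm_num [K0], ((-7 / 4), (-17 / 4)), by norm_num [K0],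
      by simp only; linarith, by simp only; linarith, ?_⟩
    simp only
    nlinarith [mul_nonneg b0 b1, mul_nonneg hw.le b0, mul_nonneg hw.le b1, mul_pos hw hw]
  rcases le_total z ((-19 / 40) * w) with a2 | a2
  · have b0 : 0 ≤ z - (-29 / 40) * w := by linarith
    have b1 : 0 ≤ (-19 / 40) * w - z := by linarith
    refine ⟨((46), (-31)), by norm_num [K0], ((46), (31)), by norm_num [K0], ((-1), (-17)), by norm_num [K0],
      by simp only; linarith, by simp only; linarith, ?_⟩
    simp only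
    nlinarith [mul_nonneg b0 b1, mul_nonneg hw.le b0, mul_nonneg hw.le b1, mul_pos hw hw]
  rcases le_total z ((-1 / 20) * w) with a3 | a3
  · have b0 : 0 ≤ z - (-19 / 40) * w := by linarith
    have b1 : 0 ≤ (-1 / 20) * w - z := by linarith
    refine ⟨((46), (-31)), by norm_num [K0], ((46), (31)), by norm_num [K0], ((0), (-34)), by norm_num [K0],
      by simp only; linarith, by simp only; linarith, ?_⟩
    simp only
    nlinarith [mul_nonneg b0 b1, mul_nonneg hw.le b0, mul_nonneg hw.le b1, mul_pos hw hw]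
  rcases le_total z ((3 / 20) * w) with a4 | a4
  · have b0 : 0 ≤ z - (-1 / 20) * w := by linarith
    have b1 : 0 ≤ (3 / 20) * w - z := by linarith
    refine ⟨((46), (-31)), by norm_num [K0], ((0), (34)), by norm_num [K0], ((0), (-34)), by norm_num [K0],
      by simp only; linarith, by simp only; linarith, ?_⟩
    simp only
    nlinarith [mul_nonneg b0 b1, mul_nonneg hw.le b0, mul_nonneg hw.le b1, mul_pos hw hw]
  · have b0 : 0 ≤ z - (3 / 20) * w := by linarith
    have b1 : 0 ≤ (1) * w - z := by linarith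
    refine ⟨((46), (31)), by norm_num [K0], ((0), (34)), by norm_num [K0], ((0), (-34)), by norm_num [K0],
      by simp only; linarith, by simp only; linarith, ?_⟩
    simp only
    nlinarith [mul_nonneg b0 b1, mul_nonneg hw.le b0, mul_nonneg hw.le b1, mul_pos hw hw]

lemma good3 (w z : ℝ) (hw : 0 < w) (h0 : -w ≤ z) (h1 : z ≤ w) : Good z (-w) := by
  rcases le_total z ((-3 / 40) * w) with a1 | a1
  · have b0 : 0 ≤ z - (-1) * w := by linarith
    have b1 : 0 ≤ (-3 / 40) * w - z := by linarith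
    refine ⟨((46), (31)), by norm_num [K0], ((0), (34)), by norm_num [K0], ((46), (-31)), by norm_num [K0],
      by simp only; linarith, by simp only; linarith, ?_⟩
    simp only
    nlinarith [mul_nonneg b0 b1, mul_nonneg hw.le b0, mul_nonneg hw.le b1, mul_pos hw hw]
  rcases le_total z ((1 / 8) * w) with a2 | a2
  · have b0 : 0 ≤ z - (-3 / 40) * w := by linarith
    have b1 : 0 ≤ (1 / 8) * w - z := by linarith
    refine ⟨((0), (34)), by norm_num [K0], ((-2), (0)), by norm_num [K0], ((46), (-31)), by norm_num [K0],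
      by simp only; linarith, by simp only; linarith, ?_⟩
    simp only
    nlinarith [mul_nonneg b0 b1, mul_nonneg hw.le b0, mul_nonneg hw.le b1, mul_pos hw hw]
  rcases le_total z ((3 / 4) * w) with a3 | a3
  · have b0 : 0 ≤ z - (1 / 8) * w := by linarith
    have b1 : 0 ≤ (3 / 4) * w - z := by linarith
    refine ⟨((0), (34)), by norm_num [K0], ((0), (-34)), by norm_num [K0], ((46), (-31)), by norm_num [K0],
      by simp only; linarith, by simp only; linarith, ?_⟩
    simp only
    nlinarith [mul_nonneg b0 b1, mul_nonneg hw.le b0, mul_nonneg hw.le b1, mul_pos hw hw]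
  · have b0 : 0 ≤ z - (3 / 4) * w := by linarith
    have b1 : 0 ≤ (1) * w - z := by linarith
    refine ⟨((0), (34)), by norm_num [K0], ((0), (-34)), by norm_num [K0], ((46), (0)), by norm_num [K0],
      by simp only; linarith, by simp only; linarith, ?_⟩
    simp only
    nlinarith [mul_nonneg b0 b1, mul_nonneg hw.le b0, mul_nonneg hw.le b1, mul_pos hw hw]

lemma good (s t : ℝ) (h : s ≠ 0 ∨ t ≠ 0) : Good s t := by
  rcases le_total |t| |s| with h1 | h1
  · rcases lt_trichotomy s 0 with hs | hs | hs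
    · rw [abs_of_neg hs, abs_le] at h1
      simpa using good2 (-s) (-t) (by linarith) (by linarith) (by linarith)
    · subst hs
      simp at h1 h
      exact absurd h1 h
    · rw [abs_of_pos hs, abs_le] at h1
      exact good0 s t hs h1.1 h1.2
  · rcases lt_trichotomy t 0 with hs | hs | hs
    · rw [abs_of_neg hs, abs_le] at h1
      simpa using good3 (-t) s (by linarith) (by linarith) (by linarith)
    · subst hs
      simp at h1 h
      exact absurd h1 h
    · rw [abs_of_pos hs, abs_le] at h1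
      simpa using good1 t (-s) hs (by linarith) (by linarith)

lemma bary {a b c p : ℝ × ℝ} (hp : p ∈ convexHull ℝ {a, b, c}) :
    ∃ x y : ℝ, 0 ≤ x ∧ 0 ≤ y ∧ x + y ≤ 1 ∧ p = a + x • (b - a) + y • (c - a) := by
  have : convexHull ℝ {a, b, c} ⊆
      {p | ∃ x y : ℝ, 0 ≤ x ∧ 0 ≤ y ∧ x + y ≤ 1 ∧ p = a + x • (b - a) + y • (c - a)} := by
    apply convexHull_min
    · rintro _ (rfl | rfl | rfl)
      · exact ⟨0, 0, le_rfl, le_rfl, by norm_num, by simp⟩
      · exact ⟨1, 0, by norm_num, le_rfl, by norm_num, by simp⟩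
      · exact ⟨0, 1, le_rfl, by norm_num, by norm_num, by simp⟩
    · rintro _ ⟨x, y, h1, h2, h3, rfl⟩ _ ⟨x', y', h1', h2', h3', rfl⟩ s t hs ht hst
      refine ⟨s * x + t * x', s * y + t * y', by positivity, by positivity, by nlinarith, ?_⟩
      obtain rfl : t = 1 - s := by linarith
      module
  exact this hp

lemma vol_std : volume (regionBetween (fun _ : ℝ => (0 : ℝ)) (fun x => 1 - x) (Ioc 0 1))
    = ENNReal.ofReal (1 / 2) := by
  rw [Measure.volume_eq_prod, volume_regionBetween_eq_integral]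
  · congr 1
    rw [← intervalIntegral.integral_of_le (by norm_num)]
    simp only [Pi.sub_apply, sub_zero]
    rw [intervalIntegral.integral_sub (by simp) (by simp)]
    norm_num
  · exact (continuous_const.integrableOn_Icc).mono_set Ioc_subset_Icc_self
  · exact (Continuous.integrableOn_Icc (by fun_prop)).mono_set Ioc_subset_Icc_self
  · exact measurableSet_Ioc
  · intro x hx; linarith [hx.2]

lemma vol_tri (a b c : ℝ × ℝ) :
    ENNReal.ofReal (|(b.1 - a.1) * (c.2 - a.2) - (c.1 - a.1) * (b.2 - a.2)| / 2)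
      ≤ volume (convexHull ℝ {a, b, c}) := by
  set f : (ℝ × ℝ) →ₗ[ℝ] (ℝ × ℝ) := Matrix.toLin (Module.Basis.finTwoProd ℝ) (Module.Basis.finTwoProd ℝ)
    !![b.1 - a.1, c.1 - a.1; b.2 - a.2, c.2 - a.2] with hf
  set D := regionBetween (fun _ : ℝ => (0 : ℝ)) (fun x => 1 - x) (Ioc 0 1) with hD
  have h1 : volume (f '' D)
      = ENNReal.ofReal (|(b.1 - a.1) * (c.2 - a.2) - (c.1 - a.1) * (b.2 - a.2)| / 2) := by
    rw [Measure.addHaar_image_linearMap, hf, LinearMap.det_toLin, Matrix.det_fin_two_of, vol_std,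
      ← ENNReal.ofReal_mul (abs_nonneg _)]
    congr 1; ring
  rw [← h1, ← measure_preimage_add volume a (convexHull ℝ {a, b, c})]
  apply measure_mono
  rintro _ ⟨⟨x, y⟩, ⟨hx, hy⟩, rfl⟩
  simp only [mem_Ioc, mem_Ioo] at hx hy
  have := (convex_convexHull ℝ ({a, b, c} : Set (ℝ × ℝ))).sum_mem
    (t := Finset.univ) (w := ![1 - x - y, x, y]) (z := ![a, b, c])
    (by intro i _; fin_cases i <;> simp <;> linarith)
    (by simp only [Fin.sum_univ_three, Matrix.cons_val]; ring)
    (by intro i _; apply subset_convexHull; fin_cases i <;> simp)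
  rw [mem_preimage]
  convert this using 1
  rw [hf, Matrix.toLin_finTwoProd_apply]
  ext <;> simp [Fin.sum_univ_three] <;> ring

lemma vol_lin (l u p q : ℝ) (hlu : l ≤ u) (h : ∀ x ∈ Icc l u, 0 ≤ p * x + q) :
    volume (regionBetween (fun x : ℝ => -(p * x + q)) (fun x => p * x + q) (Icc l u))
    = ENNReal.ofReal (p * (u ^ 2 - l ^ 2) + 2 * q * (u - l)) := by
  rw [Measure.volume_eq_prod, volume_regionBetween_eq_integral]
  · congr 1
    rw [integral_Icc_eq_integral_Ioc, ← intervalIntegral.integral_of_le hlu]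
    have : ∀ x : ℝ, ((fun x => p * x + q) - fun x => -(p * x + q)) x = (2 * p) * x + 2 * q := by
      intro x; simp only [Pi.sub_apply]; ring
    simp_rw [this]
    rw [intervalIntegral.integral_add (by apply Continuous.intervalIntegrable; fun_prop) (by simp),
      intervalIntegral.integral_const_mul, integral_id]
    simp; ring
  · exact Continuous.integrableOn_Icc (by fun_prop)
  · exact Continuous.integrableOn_Icc (by fun_prop)
  · exact measurableSet_Icc
  · intro x hx; linarith [h x hx]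

lemma vol_K0 : volume K0 ≤ ENNReal.ofReal 3070 := by
  have hsub : K0 ⊆ regionBetween (fun x : ℝ => -(17 * x + 341 / 10)) (fun x => 17 * x + 341 / 10)
      (Icc (-2) 0) ∪ regionBetween (fun x : ℝ => -(-3 / 46 * x + 341 / 10))
      (fun x => -3 / 46 * x + 341 / 10) (Icc 0 46) := by
    rintro ⟨x, y⟩ ⟨h1, h2, h3, h4, h5⟩
    simp only at h1 h2 h3 h4 h5
    rcases le_total x 0 with h | h
    · left; exact ⟨⟨by linarith, h⟩, by simp only; linarith, by simp only; linarith⟩
    · right; exact ⟨⟨h, h1⟩, by simp only; linarith, by simp only; linarith⟩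
  refine (measure_mono hsub).trans ((measure_union_le _ _).trans ?_)
  rw [vol_lin _ _ _ _ (by norm_num) (fun x hx => by linarith [hx.1]),
    vol_lin _ _ _ _ (by norm_num) (fun x hx => by linarith [hx.2]),
    ← ENNReal.ofReal_add (by norm_num) (by norm_num)]
  exact ENNReal.ofReal_le_ofReal (by norm_num)

lemma K0_convex : Convex ℝ K0 := by
  rintro x ⟨x1, x2, x3, x4, x5⟩ y ⟨y1, y2, y3, y4, y5⟩ a b ha hb hab
  obtain rfl : b = 1 - a := by linarith
  simp only [K0, Set.mem_ofPred_eq, Prod.fst_add, Prod.snd_add, Prod.smul_fst, Prod.smul_snd,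
    smul_eq_mul]
  refine ⟨by nlinarith, by nlinarith, by nlinarith, by nlinarith, by nlinarith⟩

lemma K0_compact : IsCompact K0 := by
  have hc : IsClosed K0 := by
    unfold K0
    simp only [Set.ofPred_and]
    refine (isClosed_le ?_ ?_).inter ((isClosed_le ?_ ?_).inter ((isClosed_le ?_ ?_).inter
      ((isClosed_le ?_ ?_).inter (isClosed_le ?_ ?_)))) <;> fun_prop
  refine (isCompact_Icc (a := ((-2 : ℝ), (-40 : ℝ))) (b := (46, 40))).of_isClosed_subset hc ?_
  rintro ⟨x, y⟩ ⟨h1, h2, h3, h4, h5⟩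
  simp only at h1 h2 h3 h4 h5
  refine ⟨⟨?_, ?_⟩, ⟨?_, ?_⟩⟩ <;> simp only <;> linarith

lemma K0_int : (interior K0).Nonempty := by
  refine ⟨(1, 0), mem_interior.2 ⟨Ioo 0 2 ×ˢ Ioo (-1) 1, ?_, isOpen_Ioo.prod isOpen_Ioo, ?_⟩⟩
  · rintro ⟨x, y⟩ ⟨⟨h1, h2⟩, ⟨h3, h4⟩⟩
    simp only at h1 h2 h3 h4
    refine ⟨?_, ?_, ?_, ?_, ?_⟩ <;> simp only <;> linarith
  · constructor <;> constructor <;> norm_num

lemma key {r : ℝ} (hr : 0 < r) (a b c : ℝ × ℝ) (l : ℝ) (hl : 0 < l) (hb : b ≠ a)
    (h1 : c.1 - a.1 = -l * (b.2 - a.2)) (h2 : c.2 - a.2 = l * (b.1 - a.1))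
    (hK : r • K0 ⊆ convexHull ℝ {a, b, c}) :
    4 * 3070 * r ^ 2 < l * ((b.1 - a.1) ^ 2 + (b.2 - a.2) ^ 2) := by
  set s := b.1 - a.1 with hs
  set t := b.2 - a.2 with ht
  have hst : s ≠ 0 ∨ t ≠ 0 := by
    by_contra hh
    push Not at hh
    exact hb (Prod.ext (by linarith [hh.1]) (by linarith [hh.2]))
  have hN : 0 < s ^ 2 + t ^ 2 := by
    rcases hst with h | h
    · have := sq_pos_of_ne_zero h; positivity
    · have := sq_pos_of_ne_zero h; positivity
  obtain ⟨P, hP, Q, hQ, R, hR, e1, e2, e3⟩ := good s t hst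
  have co : ∀ X ∈ K0, ∃ x y : ℝ, 0 ≤ x ∧ 0 ≤ y ∧ x + y ≤ 1 ∧
      r * X.1 = a.1 + x * s - y * l * t ∧ r * X.2 = a.2 + x * t + y * l * s := by
    intro X hX
    obtain ⟨x, y, p1, p2, p3, p4⟩ := bary (hK (smul_mem_smul_set hX))
    have q1 := congrArg Prod.fst p4
    have q2 := congrArg Prod.snd p4
    simp only [Prod.fst_add, Prod.snd_add, Prod.smul_fst, Prod.smul_snd, Prod.fst_sub, Prod.snd_sub,
      smul_eq_mul] at q1 q2
    rw [h1] at q1
    rw [h2] at q2
    exact ⟨x, y, p1, p2, p3, by linarith, by linarith⟩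
  obtain ⟨x1, y1, a1, -, -, a4, a5⟩ := co P hP
  obtain ⟨x2, y2, -, b2, -, b4, b5⟩ := co Q hQ
  obtain ⟨x3, y3, c1, c2, c3, c4, c5⟩ := co R hR
  set L1 := (R.1 - P.1) * s + (R.2 - P.2) * t with hL1
  set L2 := -(R.1 - Q.1) * t + (R.2 - Q.2) * s with hL2
  set N := s ^ 2 + t ^ 2 with hNd
  have f1 : r * L1 = (x3 - x1) * N := by
    rw [hL1, hNd]; linear_combination s * c4 - s * a4 + t * c5 - t * a5
  have f2 : r * L2 = (y3 - y2) * (l * N) := by
    rw [hL2, hNd]; linear_combination -t * c4 + t * b4 + s * c5 - s * b5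
  have g1 : r * L1 ≤ x3 * N := by rw [f1]; nlinarith
  have g2 : r * L2 ≤ y3 * (l * N) := by
    rw [f2]; have : 0 < l * N := by positivity
    nlinarith
  have g3 : (r * L1) * (r * L2) ≤ (x3 * N) * (y3 * (l * N)) :=
    mul_le_mul g1 g2 (by positivity) (by positivity)
  have g4 : 4 * (x3 * y3) ≤ 1 := by nlinarith [sq_nonneg (x3 - y3)]
  have g5 : (4 * (x3 * y3)) * (l * N * N) ≤ 1 * (l * N * N) :=
    mul_le_mul_of_nonneg_right g4 (by positivity)
  have g6 : r ^ 2 * (3070 * N) < r ^ 2 * (L1 * L2) := by gcongr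
  have g7 : (4 * 3070 * r ^ 2) * N < (l * N) * N := by nlinarith
  exact lt_of_mul_lt_mul_right g7 hN.le

theorem result : ∃ K : Set (ℝ × ℝ), IsCompact K ∧ Convex ℝ K ∧ (interior K).Nonempty ∧
    volume K = 1 ∧ ∀ a b c : ℝ × ℝ, b ≠ a → c ≠ a →
      (b.1 - a.1) * (c.1 - a.1) + (b.2 - a.2) * (c.2 - a.2) = 0 →
      K ⊆ convexHull ℝ {a, b, c} → 2 < volume (convexHull ℝ {a, b, c}) := by
  have hfin : volume K0 ≠ ⊤ := K0_compact.measure_lt_top.ne
  have hpos : 0 < volume K0 := Measure.measure_pos_of_nonempty_interior _ K0_int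
  set v := (volume K0).toReal with hv
  have hv0 : 0 < v := ENNReal.toReal_pos hpos.ne' hfin
  have hv1 : v ≤ 3070 := ENNReal.toReal_le_of_le_ofReal (by norm_num) vol_K0
  set r := (Real.sqrt v)⁻¹ with hr
  have hr0 : 0 < r := by positivity
  have hr2 : r ^ 2 * v = 1 := by
    rw [hr, inv_pow, Real.sq_sqrt hv0.le]; field_simp
  refine ⟨r • K0, K0_compact.smul r, K0_convex.smul r, ?_, ?_, ?_⟩
  · rw [interior_smul₀ hr0.ne']
    exact K0_int.smul_set
  · rw [Measure.addHaar_smul, ← ENNReal.ofReal_toReal hfin, ← hv,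
      ← ENNReal.ofReal_mul (abs_nonneg _), Module.finrank_prod, Module.finrank_self,
      abs_of_nonneg (by positivity), hr2, ENNReal.ofReal_one]
  · intro a b c hb hc horth hK
    refine lt_of_lt_of_le ?_ (vol_tri a b c)
    rw [show (2 : ENNReal) = ENNReal.ofReal 2 by simp, ENNReal.ofReal_lt_ofReal_iff_of_nonneg
      (by norm_num), lt_div_iff₀ (by norm_num)]
    have h4 : 4 ≤ 4 * 3070 * r ^ 2 := by nlinarith [sq_nonneg r]
    have pos : ∀ p q : ℝ × ℝ, p ≠ q → 0 < (p.1 - q.1) ^ 2 + (p.2 - q.2) ^ 2 := by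
      intro p q h
      by_contra hh
      push Not at hh
      exact h (Prod.ext (by nlinarith [sq_nonneg (p.1 - q.1), sq_nonneg (p.2 - q.2)])
        (by nlinarith [sq_nonneg (p.1 - q.1), sq_nonneg (p.2 - q.2)]))
    have hN := pos b a hb
    have hM := pos c a hc
    set D := (b.1 - a.1) * (c.2 - a.2) - (c.1 - a.1) * (b.2 - a.2) with hD
    rcases lt_trichotomy D 0 with h | h | h
    · have := key hr0 a c b (-D / ((c.1 - a.1) ^ 2 + (c.2 - a.2) ^ 2)) (div_pos (by linarith) hM) hc
        (by field_simp; rw [hD]; linear_combination (c.1 - a.1) * horth)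
        (by field_simp; rw [hD]; linear_combination (c.2 - a.2) * horth)
        (by rwa [Set.pair_comm c b])
      rw [div_mul_cancel₀ _ hM.ne'] at this
      rw [abs_of_neg h]; linarith
    · exfalso
      have : ((b.1 - a.1) ^ 2 + (b.2 - a.2) ^ 2) * ((c.1 - a.1) ^ 2 + (c.2 - a.2) ^ 2) = 0 := by
        rw [hD] at h
        linear_combination ((b.1 - a.1) * (c.1 - a.1) + (b.2 - a.2) * (c.2 - a.2)) * horth
          + ((b.1 - a.1) * (c.2 - a.2) - (c.1 - a.1) * (b.2 - a.2)) * h
      exact absurd this (mul_pos hN hM).ne'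
    · have := key hr0 a b c (D / ((b.1 - a.1) ^ 2 + (b.2 - a.2) ^ 2)) (div_pos h hN) hb
        (by field_simp; rw [hD]; linear_combination (b.1 - a.1) * horth)
        (by field_simp; rw [hD]; linear_combination (b.2 - a.2) * horth) hK
      rw [div_mul_cancel₀ _ hN.ne'] at this
      rw [abs_of_pos h]; linarith

end Pool.Agent.Results.MP_49a3fa_co.Counter
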